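import Mathlib

set_option autoImplicit false

/-!
# MP_4f8f6c_nt: primitive pentanomials from primitive trinomials

If `x^n + x^a + 1` is primitive over `GF(2)` with root `α` and `r` is coprime to `2^n - 1`, then the
minimal polynomial of `α^r` is primitive of degree `n`. For `r = 5`, `r = 7` and (for special
`n, a`) `r = 2^k + 1` it has five terms.
-/

namespace Pool.Agent.Results.MP_4f8f6c_nt.PrimitivePentanomials

open Polynomial

/-- `f` is primitive: it has degree `n ≥ 1`, `f(0) = 1`, it is irreducible, and the least positive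
`t` with `f ∣ x^t + 1` is `2^n - 1`. -/
def IsPrim (f : (ZMod 2)[X]) : Prop :=
  1 ≤ f.natDegree ∧ f.eval 0 = 1 ∧ Irreducible f ∧
    IsLeast {t : ℕ | 0 < t ∧ f ∣ X ^ t + 1} (2 ^ f.natDegree - 1)

/-- `f` is a pentanomial of degree `n`. -/
def IsPentanomial (n : ℕ) (f : (ZMod 2)[X]) : Prop :=
  ∃ a₁ a₂ a₃ : ℕ, 0 < a₁ ∧ a₁ < a₂ ∧ a₂ < a₃ ∧ a₃ < n ∧
    f = X ^ n + X ^ a₃ + X ^ a₂ + X ^ a₁ + 1

lemma two_eq {K : Type*} [Field K] [Algebra (ZMod 2) K] : (2 : K) = 0 := by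
  have h : algebraMap (ZMod 2) K (2 : ZMod 2) = 0 := by
    have h2 : (2 : ZMod 2) = 0 := by decide
    rw [h2, map_zero]
  rw [map_ofNat] at h
  exact h

lemma charTwo {K : Type*} [Field K] [Algebra (ZMod 2) K] : CharP K 2 :=
  charP_of_injective_algebraMap (algebraMap (ZMod 2) K).injective 2

lemma add_eq_zero' {K : Type*} [Field K] [Algebra (ZMod 2) K] {x y : K} : x + y = 0 ↔ x = y := by
  have h2 := two_eq (K := K)
  constructor
  · intro h
    linear_combination h - y * h2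
  · intro h
    linear_combination h + y * h2

/-- an element of degree at most `m` has order dividing some `2^e - 1`, `e ≤ m` -/
lemma pow_of_deg {K : Type*} [Field K] [Algebra (ZMod 2) K] {γ : K} (hγ : γ ≠ 0)
    {p : (ZMod 2)[X]} (hp : p.Monic) (hr : aeval γ p = 0) {m : ℕ} (hm : p.natDegree ≤ m) :
    ∃ e, 1 ≤ e ∧ e ≤ m ∧ γ ^ (2 ^ e - 1) = 1 ∧ (minpoly (ZMod 2) γ).natDegree = e := by
  have hint : IsIntegral (ZMod 2) γ := ⟨p, hp, hr⟩
  have hirr := minpoly.irreducible hint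
  refine ⟨(minpoly (ZMod 2) γ).natDegree, minpoly.natDegree_pos hint, ?_, ?_, rfl⟩
  · exact (natDegree_le_of_dvd (minpoly.dvd _ _ hr) hp.ne_zero).trans hm
  · have h1 := hirr.natDegree_dvd_iff_dvd_X_pow_card_pow_sub_X.1 (dvd_refl _)
    have h2 : aeval γ ((X : (ZMod 2)[X]) ^ (Nat.card (ZMod 2)) ^
        (minpoly (ZMod 2) γ).natDegree - X) = 0 := by
      obtain ⟨c, hc⟩ := h1
      rw [hc, map_mul, minpoly.aeval, zero_mul]
    have hcard : Nat.card (ZMod 2) = 2 := by simp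
    rw [hcard, map_sub, map_pow, aeval_X, sub_eq_zero] at h2
    have h3 : 0 < 2 ^ (minpoly (ZMod 2) γ).natDegree := by positivity
    have h4 : γ ^ (2 ^ (minpoly (ZMod 2) γ).natDegree - 1) * γ = 1 * γ := by
      rw [← pow_succ, one_mul, Nat.sub_add_cancel h3, h2]
    exact mul_right_cancel₀ hγ h4

/-- a monic polynomial of degree `n` with a root of order `2^n - 1` is primitive -/
lemma prim_of_root {K : Type*} [Field K] [Algebra (ZMod 2) K] {β : K} {n : ℕ} (hn : 1 ≤ n)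
    (hord : orderOf β = 2 ^ n - 1) {g : (ZMod 2)[X]} (hg : g.Monic) (hdeg : g.natDegree = n)
    (h0 : g.eval 0 = 1) (hroot : aeval β g = 0) : IsPrim g := by
  have hpos : 0 < 2 ^ n - 1 := by
    have : 2 ^ 1 ≤ 2 ^ n := Nat.pow_le_pow_right (by norm_num) hn
    omega
  have hβ : β ≠ 0 := by
    rintro rfl
    have h1 := pow_orderOf_eq_one (0 : K)
    rw [hord, zero_pow hpos.ne'] at h1
    exact zero_ne_one h1
  obtain ⟨e, he1, he2, he3, he4⟩ := pow_of_deg hβ hg hroot hdeg.le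
  have hen : e = n := by
    refine le_antisymm he2 ?_
    have h1 : 2 ^ n - 1 ∣ 2 ^ e - 1 := by
      rw [← hord]
      exact orderOf_dvd_of_pow_eq_one he3
    have h2 : 0 < 2 ^ e - 1 := by
      have : 2 ^ 1 ≤ 2 ^ e := Nat.pow_le_pow_right (by norm_num) he1
      omega
    have h3 := Nat.le_of_dvd h2 h1
    have h4 : 2 ^ n ≤ 2 ^ e := by omega
    exact (Nat.pow_le_pow_iff_right (by norm_num)).1 h4
  have hint : IsIntegral (ZMod 2) β := ⟨g, hg, hroot⟩
  have hmin : minpoly (ZMod 2) β = g := by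
    refine (eq_of_monic_of_dvd_of_natDegree_le (minpoly.monic hint) hg
      (minpoly.dvd _ _ hroot) ?_).symm
    rw [he4, hen, hdeg]
  have hirr : Irreducible g := hmin ▸ minpoly.irreducible hint
  have hiff : ∀ t : ℕ, g ∣ X ^ t + 1 ↔ β ^ t = 1 := by
    intro t
    rw [← hmin, minpoly.dvd_iff, map_add, map_pow, aeval_X, map_one, add_eq_zero']
  refine ⟨hdeg ▸ hn, h0, hirr, ?_, ?_⟩
  · rw [hdeg]
    refine ⟨hpos, (hiff _).2 ?_⟩
    rw [← hord]
    exact pow_orderOf_eq_one β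
  · rintro t ⟨ht, hd⟩
    rw [hdeg, ← hord]
    exact orderOf_le_of_pow_eq_one ht ((hiff t).1 hd)

lemma natdeg {n : ℕ} {r : (ZMod 2)[X]} (h : degree r < n) : (X ^ n + r).natDegree = n := by
  refine natDegree_eq_of_degree_eq_some ?_
  rw [degree_add_eq_left_of_degree_lt (by rw [degree_X_pow]; exact h), degree_X_pow]

lemma penta_sorted {K : Type*} [Field K] [Algebra (ZMod 2) K] {β : K} {n : ℕ}
    (hord : orderOf β = 2 ^ n - 1) {p q s : ℕ} (hp : 0 < p) (hpq : p < q) (hqs : q < s)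
    (hsn : s < n) (h : β ^ n + β ^ p + β ^ q + β ^ s + 1 = 0) :
    ∃ g, IsPentanomial n g ∧ IsPrim g := by
  have hlt : degree ((X : (ZMod 2)[X]) ^ s + X ^ q + X ^ p + 1) < n := by
    have h1 : degree ((X : (ZMod 2)[X]) ^ s) < n := by
      rw [degree_X_pow]; exact_mod_cast hsn
    have h2 : degree ((X : (ZMod 2)[X]) ^ q) < n := by
      rw [degree_X_pow]; exact_mod_cast (hqs.trans hsn)
    have h3 : degree ((X : (ZMod 2)[X]) ^ p) < n := by
      rw [degree_X_pow]; exact_mod_cast (hpq.trans (hqs.trans hsn))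
    have h4 : degree (1 : (ZMod 2)[X]) < n := by
      rw [degree_one]; exact_mod_cast (by omega : 0 < n)
    refine (degree_add_le _ _).trans_lt (max_lt ?_ h4)
    refine (degree_add_le _ _).trans_lt (max_lt ?_ h3)
    exact (degree_add_le _ _).trans_lt (max_lt h1 h2)
  have he : (X : (ZMod 2)[X]) ^ n + X ^ s + X ^ q + X ^ p + 1 =
      X ^ n + (X ^ s + X ^ q + X ^ p + 1) := by ring
  refine ⟨X ^ n + X ^ s + X ^ q + X ^ p + 1, ⟨p, q, s, hp, hpq, hqs, hsn, rfl⟩, ?_⟩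
  rw [he]
  refine prim_of_root (by omega) hord (monic_X_pow_add hlt) (natdeg hlt) ?_ ?_
  · simp [hp.ne', (hp.trans hpq).ne', (hp.trans (hpq.trans hqs)).ne',
      (hp.trans (hpq.trans (hqs.trans hsn))).ne']
  · simp only [map_add, map_pow, aeval_X, map_one]
    rw [← h]
    ring

lemma penta {K : Type*} [Field K] [Algebra (ZMod 2) K] {β : K} {n : ℕ}
    (hord : orderOf β = 2 ^ n - 1) {p q s : ℕ} (hp : 0 < p) (hq : 0 < q) (hs : 0 < s)
    (hpn : p < n) (hqn : q < n) (hsn : s < n) (h1 : p ≠ q) (h2 : q ≠ s) (h3 : p ≠ s)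
    (h : β ^ n + β ^ p + β ^ q + β ^ s + 1 = 0) :
    ∃ g, IsPentanomial n g ∧ IsPrim g := by
  rcases lt_or_gt_of_ne h1 with hA | hA <;> rcases lt_or_gt_of_ne h2 with hB | hB <;>
    rcases lt_or_gt_of_ne h3 with hC | hC
  · exact penta_sorted hord hp hA hB hsn h
  · omega
  · exact penta_sorted (p := p) (q := s) (s := q) hord hp hC hB hqn (by rw [← h]; ring)
  · exact penta_sorted (p := s) (q := p) (s := q) hord hs hC hA hqn (by rw [← h]; ring)
  · exact penta_sorted (p := q) (q := p) (s := s) hord hq hA hC hsn (by rw [← h]; ring)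
  · exact penta_sorted (p := q) (q := s) (s := p) hord hq hB hC hpn (by rw [← h]; ring)
  · omega
  · exact penta_sorted (p := s) (q := q) (s := p) hord hs hB hA hpn (by rw [← h]; ring)

/-! ### identities in characteristic two -/

lemma id5 {K : Type*} [Field K] [Algebra (ZMod 2) K] {A B C : K} (h : A + B + C = 0) :
    A ^ 5 + B ^ 5 + C ^ 5 + A ^ 3 * B * C + A * B ^ 2 * C ^ 2 = 0 := by
  have h2 := two_eq (K := K)
  have hC : C = A + B := (add_eq_zero'.1 h).symm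
  rw [hC]
  linear_combination (A ^ 5 + 3 * A ^ 4 * B + 6 * A ^ 3 * B ^ 2 + 6 * A ^ 2 * B ^ 3 +
    3 * A * B ^ 4 + B ^ 5) * h2

lemma id7 {K : Type*} [Field K] [Algebra (ZMod 2) K] {A B C : K} (h : A + B + C = 0) :
    A ^ 7 + B ^ 7 + C ^ 7 + A ^ 5 * B * C + A * B ^ 3 * C ^ 3 = 0 := by
  have h2 := two_eq (K := K)
  have hC : C = A + B := (add_eq_zero'.1 h).symm
  rw [hC]
  linear_combination (A ^ 7 + 4 * A ^ 6 * B + 11 * A ^ 5 * B ^ 2 + 18 * A ^ 4 * B ^ 3 +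
    19 * A ^ 3 * B ^ 4 + 12 * A ^ 2 * B ^ 5 + 4 * A * B ^ 6 + B ^ 7) * h2

lemma idq {K : Type*} [Field K] [Algebra (ZMod 2) K] {A B C : K} (h : A + B + C = 0) (k : ℕ) :
    A ^ (2 ^ k + 1) + B ^ (2 ^ k + 1) + C ^ (2 ^ k + 1) + A ^ 2 ^ k * B + A * B ^ 2 ^ k = 0 := by
  have h2 := two_eq (K := K)
  have := charTwo (K := K)
  have hC : C = A + B := (add_eq_zero'.1 h).symm
  have h3 : (A + B) ^ 2 ^ k = A ^ 2 ^ k + B ^ 2 ^ k := add_pow_char_pow A B 2 k
  rw [hC, pow_succ, pow_succ, pow_succ (A + B), h3]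
  linear_combination (A ^ 2 ^ k * A + B ^ 2 ^ k * B + A ^ 2 ^ k * B + A * B ^ 2 ^ k) * h2

/-! ### decimations -/

lemma dec5 {K : Type*} [Field K] [Algebra (ZMod 2) K] {α : K} {x y z e1 e2 : ℕ}
    (h : α ^ x + α ^ y + α ^ z = 0) (h1 : 5 * e1 = 3 * x + y + z)
    (h2 : 5 * e2 = x + 2 * y + 2 * z) :
    (α ^ 5) ^ x + (α ^ 5) ^ y + (α ^ 5) ^ z + (α ^ 5) ^ e1 + (α ^ 5) ^ e2 = 0 := by
  have h3 := id5 h
  have e : ∀ m, (α ^ 5) ^ m = α ^ (5 * m) := fun m => (pow_mul α 5 m).symm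
  rw [e, e, e, e, e, h1, h2]
  rw [← h3]
  ring

lemma dec7 {K : Type*} [Field K] [Algebra (ZMod 2) K] {α : K} {x y z e1 e2 : ℕ}
    (h : α ^ x + α ^ y + α ^ z = 0) (h1 : 7 * e1 = 5 * x + y + z)
    (h2 : 7 * e2 = x + 3 * y + 3 * z) :
    (α ^ 7) ^ x + (α ^ 7) ^ y + (α ^ 7) ^ z + (α ^ 7) ^ e1 + (α ^ 7) ^ e2 = 0 := by
  have h3 := id7 h
  have e : ∀ m, (α ^ 7) ^ m = α ^ (7 * m) := fun m => (pow_mul α 7 m).symm
  rw [e, e, e, e, e, h1, h2]
  rw [← h3]
  ring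

lemma decq {K : Type*} [Field K] [Algebra (ZMod 2) K] {α : K} {x y z e1 e2 k : ℕ}
    (h : α ^ x + α ^ y + α ^ z = 0) (h1 : (2 ^ k + 1) * e1 = 2 ^ k * x + y)
    (h2 : (2 ^ k + 1) * e2 = x + 2 ^ k * y) :
    (α ^ (2 ^ k + 1)) ^ x + (α ^ (2 ^ k + 1)) ^ y + (α ^ (2 ^ k + 1)) ^ z +
      (α ^ (2 ^ k + 1)) ^ e1 + (α ^ (2 ^ k + 1)) ^ e2 = 0 := by
  have h3 := idq h k
  have e : ∀ m, (α ^ (2 ^ k + 1)) ^ m = α ^ ((2 ^ k + 1) * m) := fun m => (pow_mul α _ m).symm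
  rw [e, e, e, e, e, h1, h2]
  rw [← h3]
  simp only [← pow_mul, ← pow_add]
  ring_nf

/-! ### the root of a primitive trinomial -/

lemma order_coprime {K : Type*} [Field K] {α : K} {n r : ℕ} (hα : orderOf α = 2 ^ n - 1)
    (hr : Nat.Coprime r (2 ^ n - 1)) : orderOf (α ^ r) = 2 ^ n - 1 := by
  rw [← hα]
  refine Nat.Coprime.orderOf_pow ?_
  rw [hα]
  exact hr.symm

lemma tri_monic {n a : ℕ} (han : a < n) :
    ((X : (ZMod 2)[X]) ^ n + X ^ a + 1).Monic ∧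
      ((X : (ZMod 2)[X]) ^ n + X ^ a + 1).natDegree = n := by
  have hlt : degree ((X : (ZMod 2)[X]) ^ a + 1) < n := by
    refine (degree_add_le _ _).trans_lt (max_lt ?_ ?_)
    · rw [degree_X_pow]; exact_mod_cast han
    · rw [degree_one]; exact_mod_cast (by omega : 0 < n)
  rw [add_assoc]
  exact ⟨monic_X_pow_add hlt, natdeg hlt⟩

lemma exists_root {n a : ℕ} (han : a < n)
    (h : IsPrim ((X : (ZMod 2)[X]) ^ n + X ^ a + 1)) :
    ∃ (K : Type) (_ : Field K) (_ : Algebra (ZMod 2) K) (α : K),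
      α ^ n + α ^ a + 1 = 0 ∧ orderOf α = 2 ^ n - 1 := by
  obtain ⟨h1, h0, hirr, hl1, hl2⟩ := h
  obtain ⟨hmon, hdeg⟩ := tri_monic han
  set f : (ZMod 2)[X] := X ^ n + X ^ a + 1 with hf
  have hfact : Fact (Irreducible f) := ⟨hirr⟩
  have hiff : ∀ t : ℕ, f ∣ X ^ t + 1 ↔ (AdjoinRoot.root f) ^ t = 1 := by
    intro t
    rw [← AdjoinRoot.mk_eq_zero, map_add, map_pow, AdjoinRoot.mk_X, map_one, add_eq_zero']
  refine ⟨AdjoinRoot f, inferInstance, inferInstance, AdjoinRoot.root f, ?_, ?_⟩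
  · have h2 : AdjoinRoot.mk f (X ^ n + X ^ a + 1) = 0 := by
      rw [← hf]
      exact AdjoinRoot.mk_self
    simpa only [map_add, map_pow, AdjoinRoot.mk_X, map_one] using h2
  · rw [hdeg] at hl1 hl2
    obtain ⟨hpos, hd⟩ := hl1
    rw [orderOf_eq_iff hpos]
    refine ⟨(hiff _).1 hd, ?_⟩
    intro m hm hm0 hm1
    have := hl2 ⟨hm0, (hiff m).2 hm1⟩
    omega

lemma ineq (d m : ℕ) (hd : 2 ≤ d) (hm : 1 ≤ m) : d * (2 ^ m - 1) < 2 ^ (d * m) - 1 := by
  have hM : 2 ≤ 2 ^ m := by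
    calc 2 = 2 ^ 1 := by norm_num
      _ ≤ 2 ^ m := Nat.pow_le_pow_right (by norm_num) hm
  obtain ⟨c, hc⟩ : ∃ c, 2 ^ m = c + 2 := ⟨2 ^ m - 2, by omega⟩
  obtain ⟨k, rfl⟩ : ∃ k, d = k + 2 := ⟨d - 2, by omega⟩
  have h1 : 2 ^ ((k + 2) * m) = (c + 2) ^ (k + 2) := by
    rw [mul_comm, pow_mul, hc]
  rw [h1, hc]
  have h2 : ∀ k : ℕ, (k + 2) * (c + 1) + 1 < (c + 2) ^ (k + 2) := by
    intro k
    induction k with
    | zero => ring_nf; nlinarith
    | succ k ih =>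
      have : (c + 2) ^ (k + 1 + 2) = (c + 2) ^ (k + 2) * (c + 2) := pow_succ _ _
      rw [this]
      have h5 : (c + 2) ^ (k + 2) * 2 ≤ (c + 2) ^ (k + 2) * (c + 2) :=
        Nat.mul_le_mul_left _ (by omega)
      nlinarith [Nat.zero_le (k * c)]
  have h3 := h2 k
  have h4 : c + 2 - 1 = c + 1 := by omega
  rw [h4]
  omega

lemma coprime_exponents {K : Type*} [Field K] [Algebra (ZMod 2) K] {α : K} {n a : ℕ}
    (ha : 0 < a) (han : a < n) (h : α ^ n + α ^ a + 1 = 0) (hord : orderOf α = 2 ^ n - 1) :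
    Nat.Coprime n a := by
  by_contra hcop
  obtain ⟨d, hd⟩ : ∃ d, d = Nat.gcd n a := ⟨_, rfl⟩
  have hd0 : 0 < d := hd ▸ Nat.gcd_pos_of_pos_left a (by omega)
  have hd1 : d ≠ 1 := fun h => hcop (by rw [Nat.Coprime, ← hd, h])
  obtain ⟨m, hm⟩ : d ∣ n := hd ▸ Nat.gcd_dvd_left n a
  obtain ⟨b, hb⟩ : d ∣ a := hd ▸ Nat.gcd_dvd_right n a
  have hbm : b < m := by
    rw [hm, hb] at han
    exact Nat.lt_of_mul_lt_mul_left han
  have hpos : 0 < 2 ^ n - 1 := by
    have : 2 ^ 1 ≤ 2 ^ n := Nat.pow_le_pow_right (by norm_num) (by omega)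
    omega
  have hα : α ≠ 0 := by
    rintro rfl
    have h1 := pow_orderOf_eq_one (0 : K)
    rw [hord, zero_pow hpos.ne'] at h1
    exact zero_ne_one h1
  obtain ⟨hmon, hdeg⟩ := tri_monic hbm
  have hr : aeval (α ^ d) ((X : (ZMod 2)[X]) ^ m + X ^ b + 1) = 0 := by
    simp only [map_add, map_pow, aeval_X, map_one]
    rw [← pow_mul, ← pow_mul, ← hm, ← hb]
    exact h
  obtain ⟨e, he1, he2, he3, _⟩ := pow_of_deg (pow_ne_zero d hα) hmon hr hdeg.le
  rw [← pow_mul] at he3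
  have h1 : 2 ^ n - 1 ∣ d * (2 ^ e - 1) := by
    rw [← hord]
    exact orderOf_dvd_of_pow_eq_one he3
  have h2 : 0 < 2 ^ e - 1 := by
    have : 2 ^ 1 ≤ 2 ^ e := Nat.pow_le_pow_right (by norm_num) he1
    omega
  have h3 := Nat.le_of_dvd (Nat.mul_pos hd0 h2) h1
  have h4 := ineq d m (by omega) (by omega)
  have h5 : d * (2 ^ e - 1) ≤ d * (2 ^ m - 1) := by
    have : 2 ^ e ≤ 2 ^ m := Nat.pow_le_pow_right (by norm_num) he2
    exact Nat.mul_le_mul_left d (by omega)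
  rw [← hm] at h4
  omega

/-! ### the cases -/

lemma res5 (n a : ℕ) : n % 5 = 0 ∨ a % 5 = 0 ∨ (n + 4 * a) % 5 = 0 ∨ (3 * n + a) % 5 = 0 ∨
    (3 * a + n) % 5 = 0 ∨ (n + a) % 5 = 0 := by
  have h1 : n % 5 < 5 := Nat.mod_lt _ (by norm_num)
  have h2 : a % 5 < 5 := Nat.mod_lt _ (by norm_num)
  interval_cases hx : n % 5 <;> interval_cases hy : a % 5 <;> omega

section cases

variable {K : Type*} [Field K] [Algebra (ZMod 2) K] {α : K} {n a : ℕ}

lemma case5 (hn : 6 ≤ n) (hev : n % 4 = 2) (ha : 0 < a) (han : a < n)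
    (h : α ^ n + α ^ a + 1 = 0) (hord : orderOf α = 2 ^ n - 1) :
    ∃ g, IsPentanomial n g ∧ IsPrim g := by
  have hcop := coprime_exponents ha han h hord
  have h5 : Nat.Coprime 5 (2 ^ n - 1) := by
    rw [Nat.Prime.coprime_iff_not_dvd (by norm_num)]
    obtain ⟨c, hc⟩ : ∃ c, n = 4 * c + 2 := ⟨n / 4, by omega⟩
    have h1 : 2 ^ n % 5 = 4 := by
      rw [hc, pow_add, pow_mul, Nat.mul_mod, Nat.pow_mod]
      norm_num
    have h2 : 0 < 2 ^ n := by positivity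
    omega
  have hord5 := order_coprime hord h5
  -- coincidences of exponents are excluded
  have hne : ∀ c d : ℕ, d < 6 → 0 < d → c * n ≠ d * a := by
    intro c d hd hd0 hh
    have h1 : n ∣ d * a := ⟨c, by rw [← hh, mul_comm]⟩
    have h2 := Nat.le_of_dvd hd0 (hcop.dvd_of_dvd_mul_right h1)
    omega
  have t1 := hne 3 4 (by norm_num) (by norm_num)
  have t2 := hne 1 3 (by norm_num) (by norm_num)
  have t3 := hne 1 2 (by norm_num) (by norm_num)
  have t4 := hne 1 4 (by norm_num) (by norm_num)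
  have t5 := hne 2 3 (by norm_num) (by norm_num)
  have t6 := hne 1 5 (by norm_num) (by norm_num)
  have t7 := hne 4 5 (by norm_num) (by norm_num)
  have h' : α ^ n + α ^ a + α ^ 0 = 0 := by rw [pow_zero]; exact h
  have hcase := res5 n a
  rcases hcase with hc | hc | hc | hc | hc | hc
  · -- 5 ∣ n
    obtain ⟨c, hc⟩ : ∃ c, n = 5 * c := ⟨n / 5, by omega⟩
    have h1 : α ^ n + α ^ 0 + α ^ a = 0 := by rw [← h']; ring
    have h2 := decq (e1 := 4 * c) (e2 := c) (k := 2) h1 (by omega) (by omega)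
    norm_num at h2
    exact penta hord5 (p := a) (q := 4 * c) (s := c) ha (by omega) (by omega) han (by omega)
      (by omega) (by omega) (by omega) (by omega) (by rw [← h2]; ring)
  · -- 5 ∣ a
    obtain ⟨c, hc⟩ : ∃ c, a = 5 * c := ⟨a / 5, by omega⟩
    have h1 : α ^ a + α ^ 0 + α ^ n = 0 := by rw [← h']; ring
    have h2 := decq (e1 := 4 * c) (e2 := c) (k := 2) h1 (by omega) (by omega)
    norm_num at h2
    exact penta hord5 (p := a) (q := 4 * c) (s := c) ha (by omega) (by omega) han (by omega)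
      (by omega) (by omega) (by omega) (by omega) (by rw [← h2]; ring)
  · -- 5 ∣ n - a
    obtain ⟨c, hc⟩ : ∃ c, 4 * n + a = 5 * c := ⟨(4 * n + a) / 5, by omega⟩
    obtain ⟨c', hc'⟩ : ∃ c', n + 4 * a = 5 * c' := ⟨(n + 4 * a) / 5, by omega⟩
    have h2 := decq (e1 := c) (e2 := c') (k := 2) h' (by omega) (by omega)
    norm_num at h2
    exact penta hord5 (p := a) (q := c) (s := c') ha (by omega) (by omega) han (by omega)
      (by omega) (by omega) (by omega) (by omega) (by rw [← h2]; ring)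
  · -- middle exponent n
    obtain ⟨c, hc⟩ : ∃ c, 3 * n + a = 5 * c := ⟨(3 * n + a) / 5, by omega⟩
    obtain ⟨c', hc'⟩ : ∃ c', n + 2 * a = 5 * c' := ⟨(n + 2 * a) / 5, by omega⟩
    have h2 := dec5 (e1 := c) (e2 := c') h' (by omega) (by omega)
    rw [pow_zero] at h2
    exact penta hord5 (p := a) (q := c) (s := c') ha (by omega) (by omega) han (by omega)
      (by omega) (by omega) (by omega) (by omega) (by rw [← h2]; ring)
  · -- middle exponent a
    obtain ⟨c, hc⟩ : ∃ c, 3 * a + n = 5 * c := ⟨(3 * a + n) / 5, by omega⟩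
    obtain ⟨c', hc'⟩ : ∃ c', a + 2 * n = 5 * c' := ⟨(a + 2 * n) / 5, by omega⟩
    have h1 : α ^ a + α ^ n + α ^ 0 = 0 := by rw [← h']; ring
    have h2 := dec5 (e1 := c) (e2 := c') h1 (by omega) (by omega)
    rw [pow_zero] at h2
    exact penta hord5 (p := a) (q := c) (s := c') ha (by omega) (by omega) han (by omega)
      (by omega) (by omega) (by omega) (by omega) (by rw [← h2]; ring)
  · -- middle exponent 0
    obtain ⟨c, hc⟩ : ∃ c, n + a = 5 * c := ⟨(n + a) / 5, by omega⟩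
    have h1 : α ^ 0 + α ^ n + α ^ a = 0 := by rw [← h']; ring
    have h2 := dec5 (e1 := c) (e2 := 2 * c) h1 (by omega) (by omega)
    rw [pow_zero] at h2
    exact penta hord5 (p := a) (q := c) (s := 2 * c) ha (by omega) (by omega) han (by omega)
      (by omega) (by omega) (by omega) (by omega) (by rw [← h2]; ring)

end cases

lemma res7 (n a : ℕ) : n % 7 = 0 ∨ a % 7 = 0 ∨ (n + 6 * a) % 7 = 0 ∨ (5 * n + a) % 7 = 0 ∨
    (5 * a + n) % 7 = 0 ∨ (n + a) % 7 = 0 ∨ (∃ t, (t * n) % 7 = 1 ∧ (t * a) % 7 = 3) ∨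
    (∃ t, (t * n) % 7 = 3 ∧ (t * a) % 7 = 1) := by
  have h1 : n % 7 < 7 := Nat.mod_lt _ (by norm_num)
  have h2 : a % 7 < 7 := Nat.mod_lt _ (by norm_num)
  have hline : ((4 * n + a) % 7 = 0 ∧ n % 7 ≠ 0) →
      ∃ t, (t * n) % 7 = 1 ∧ (t * a) % 7 = 3 := by
    rintro ⟨h3, h4⟩
    interval_cases hx : n % 7
    · exact (h4 rfl).elim
    · exact ⟨1, by omega, by omega⟩
    · exact ⟨4, by omega, by omega⟩
    · exact ⟨5, by omega, by omega⟩
    · exact ⟨2, by omega, by omega⟩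
    · exact ⟨3, by omega, by omega⟩
    · exact ⟨6, by omega, by omega⟩
  have hline' : ((4 * a + n) % 7 = 0 ∧ a % 7 ≠ 0) →
      ∃ t, (t * n) % 7 = 3 ∧ (t * a) % 7 = 1 := by
    rintro ⟨h3, h4⟩
    interval_cases hx : a % 7
    · exact (h4 rfl).elim
    · exact ⟨1, by omega, by omega⟩
    · exact ⟨4, by omega, by omega⟩
    · exact ⟨5, by omega, by omega⟩
    · exact ⟨2, by omega, by omega⟩
    · exact ⟨3, by omega, by omega⟩
    · exact ⟨6, by omega, by omega⟩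
  have hcases : n % 7 = 0 ∨ a % 7 = 0 ∨ (n + 6 * a) % 7 = 0 ∨ (5 * n + a) % 7 = 0 ∨
      (5 * a + n) % 7 = 0 ∨ (n + a) % 7 = 0 ∨ ((4 * n + a) % 7 = 0 ∧ n % 7 ≠ 0) ∨
      ((4 * a + n) % 7 = 0 ∧ a % 7 ≠ 0) := by
    clear hline hline'
    interval_cases hx : n % 7 <;> interval_cases hy : a % 7 <;> omega
  rcases hcases with hc | hc | hc | hc | hc | hc | hc | hc
  · exact Or.inl hc
  · exact Or.inr (Or.inl hc)
  · exact Or.inr (Or.inr (Or.inl hc))
  · exact Or.inr (Or.inr (Or.inr (Or.inl hc)))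
  · exact Or.inr (Or.inr (Or.inr (Or.inr (Or.inl hc))))
  · exact Or.inr (Or.inr (Or.inr (Or.inr (Or.inr (Or.inl hc)))))
  · exact Or.inr (Or.inr (Or.inr (Or.inr (Or.inr (Or.inr (Or.inl (hline hc)))))))
  · exact Or.inr (Or.inr (Or.inr (Or.inr (Or.inr (Or.inr (Or.inr (hline' hc)))))))

/-- The residues of `(n, a, 0)` modulo `7` are not a line: otherwise `f` divides `x^7 + 1`. -/
lemma no_line {n a : ℕ} (hn : 6 ≤ n) (han : a < n)
    (h : IsPrim ((X : (ZMod 2)[X]) ^ n + X ^ a + 1)) (t : ℕ)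
    (ht : ((t * n) % 7 = 1 ∧ (t * a) % 7 = 3) ∨ ((t * n) % 7 = 3 ∧ (t * a) % 7 = 1)) : False := by
  obtain ⟨_, _, hirr, _, hl2⟩ := h
  obtain ⟨_, hdeg⟩ := tri_monic han
  have hnd : ¬ ((X : (ZMod 2)[X]) ^ n + X ^ a + 1) ∣ X ^ 7 + 1 := by
    intro hd
    have h1 := hl2 ⟨by norm_num, hd⟩
    rw [hdeg] at h1
    have h2 : 2 ^ 6 ≤ 2 ^ n := Nat.pow_le_pow_right (by norm_num) hn
    omega
  have hcop := (hirr.coprime_iff_not_dvd).2 hnd
  obtain ⟨u, v, huv⟩ := hcop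
  let q : (ZMod 2)[X] := X ^ 3 + X + 1
  have hqdeg : q.degree ≠ 0 := by
    have h1 : q = X ^ 3 + (X + 1) := by simp only [q]; ring
    have h2 : degree ((X : (ZMod 2)[X]) + 1) < 3 := by
      refine (degree_add_le _ _).trans_lt (max_lt ?_ ?_)
      · rw [degree_X]; norm_num
      · rw [degree_one]; norm_num
    rw [h1, degree_add_eq_left_of_degree_lt (by rw [degree_X_pow]; exact h2), degree_X_pow]
    norm_num
  have hnt : Nontrivial (AdjoinRoot q) := AdjoinRoot.nontrivial q hqdeg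
  let η : AdjoinRoot q := AdjoinRoot.root q
  have h2R : (2 : AdjoinRoot q) = 0 := by
    have h : algebraMap (ZMod 2) (AdjoinRoot q) (2 : ZMod 2) = 0 := by
      have h2 : (2 : ZMod 2) = 0 := by decide
      rw [h2, map_zero]
    rw [map_ofNat] at h
    exact h
  have hη : η ^ 3 + η + 1 = 0 := by
    have h2 : AdjoinRoot.mk q (X ^ 3 + X + 1) = 0 := AdjoinRoot.mk_self
    simpa only [map_add, map_pow, AdjoinRoot.mk_X, map_one] using h2
  have hη7 : η ^ 7 = 1 := by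
    linear_combination (η ^ 4 - η ^ 2 - η + 1) * hη + (η ^ 2 - 1) * h2R
  have h1 := congrArg (aeval (η ^ t)) huv
  simp only [map_add, map_mul, map_pow, aeval_X, map_one] at h1
  have e1 : (η ^ t) ^ n = η ^ ((t * n) % 7) := by
    rw [← pow_mul]; exact pow_eq_pow_mod _ hη7
  have e2 : (η ^ t) ^ a = η ^ ((t * a) % 7) := by
    rw [← pow_mul]; exact pow_eq_pow_mod _ hη7
  have e3 : (η ^ t) ^ 7 = 1 := by rw [← pow_mul, mul_comm, pow_mul, hη7, one_pow]
  rw [e1, e2, e3] at h1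
  have h3 : η ^ ((t * n) % 7) + η ^ ((t * a) % 7) + 1 = 0 := by
    rcases ht with ⟨ha, hb⟩ | ⟨ha, hb⟩
    · rw [ha, hb]
      linear_combination hη
    · rw [ha, hb]
      linear_combination hη
  rw [h3] at h1
  have h4 : (1 : AdjoinRoot q) = 0 := by
    rw [← h1]
    linear_combination (aeval (η ^ t) v) * h2R
  exact one_ne_zero h4

section cases2

variable {K : Type*} [Field K] [Algebra (ZMod 2) K] {α : K} {n a : ℕ}

lemma case7 (hn : 6 ≤ n) (h3 : ¬ 3 ∣ n) (hn7 : ¬ 7 ∣ n) (ha7 : ¬ 7 ∣ a) (hna7 : ¬ 7 ∣ n - a)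
    (ha : 0 < a) (han : a < n) (h : α ^ n + α ^ a + 1 = 0) (hord : orderOf α = 2 ^ n - 1)
    (hprim : IsPrim ((X : (ZMod 2)[X]) ^ n + X ^ a + 1)) :
    ∃ g, IsPentanomial n g ∧ IsPrim g := by
  have hcop := coprime_exponents ha han h hord
  have h7 : Nat.Coprime 7 (2 ^ n - 1) := by
    rw [Nat.Prime.coprime_iff_not_dvd (by norm_num)]
    obtain ⟨c, hc⟩ : ∃ c, n = 3 * c + 1 ∨ n = 3 * c + 2 := ⟨n / 3, by omega⟩
    have h1 : 2 ^ n % 7 = 2 ∨ 2 ^ n % 7 = 4 := by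
      rcases hc with hc | hc
      · left
        rw [hc, pow_add, pow_mul, Nat.mul_mod, Nat.pow_mod]
        norm_num
      · right
        rw [hc, pow_add, pow_mul, Nat.mul_mod, Nat.pow_mod]
        norm_num
    have h2 : 0 < 2 ^ n := by positivity
    omega
  have hord7 := order_coprime hord h7
  have hne : ∀ c d : ℕ, d < 7 → 0 < d → c * n ≠ d * a := by
    intro c d hd hd0 hh
    have h1 : n ∣ d * a := ⟨c, by rw [← hh, mul_comm]⟩
    have h2 := Nat.le_of_dvd hd0 (hcop.dvd_of_dvd_mul_right h1)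
    omega
  have t1 := hne 5 6 (by norm_num) (by norm_num)
  have t2 := hne 1 4 (by norm_num) (by norm_num)
  have t3 := hne 1 2 (by norm_num) (by norm_num)
  have t4 := hne 1 6 (by norm_num) (by norm_num)
  have t5 := hne 3 4 (by norm_num) (by norm_num)
  have h' : α ^ n + α ^ a + α ^ 0 = 0 := by rw [pow_zero]; exact h
  rcases res7 n a with hc | hc | hc | hc | hc | hc | ⟨t, hc⟩ | ⟨t, hc⟩
  · exact (hn7 (Nat.dvd_of_mod_eq_zero hc)).elim
  · exact (ha7 (Nat.dvd_of_mod_eq_zero hc)).elim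
  · exact (hna7 (by omega)).elim
  · obtain ⟨c, hc⟩ : ∃ c, 5 * n + a = 7 * c := ⟨(5 * n + a) / 7, by omega⟩
    obtain ⟨c', hc'⟩ : ∃ c', n + 3 * a = 7 * c' := ⟨(n + 3 * a) / 7, by omega⟩
    have h2 := dec7 (e1 := c) (e2 := c') h' (by omega) (by omega)
    rw [pow_zero] at h2
    exact penta hord7 (p := a) (q := c) (s := c') ha (by omega) (by omega) han (by omega)
      (by omega) (by omega) (by omega) (by omega) (by rw [← h2]; ring)
  · obtain ⟨c, hc⟩ : ∃ c, 5 * a + n = 7 * c := ⟨(5 * a + n) / 7, by omega⟩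
    obtain ⟨c', hc'⟩ : ∃ c', a + 3 * n = 7 * c' := ⟨(a + 3 * n) / 7, by omega⟩
    have h1 : α ^ a + α ^ n + α ^ 0 = 0 := by rw [← h']; ring
    have h2 := dec7 (e1 := c) (e2 := c') h1 (by omega) (by omega)
    rw [pow_zero] at h2
    exact penta hord7 (p := a) (q := c) (s := c') ha (by omega) (by omega) han (by omega)
      (by omega) (by omega) (by omega) (by omega) (by rw [← h2]; ring)
  · obtain ⟨c, hc⟩ : ∃ c, n + a = 7 * c := ⟨(n + a) / 7, by omega⟩
    have h1 : α ^ 0 + α ^ n + α ^ a = 0 := by rw [← h']; ring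
    have h2 := dec7 (e1 := c) (e2 := 3 * c) h1 (by omega) (by omega)
    rw [pow_zero] at h2
    exact penta hord7 (p := a) (q := c) (s := 3 * c) ha (by omega) (by omega) han (by omega)
      (by omega) (by omega) (by omega) (by omega) (by rw [← h2]; ring)
  · exact (no_line hn han hprim t (Or.inl hc)).elim
  · exact (no_line hn han hprim t (Or.inr hc)).elim

/-- `2^{4j} + 1` and `2^n - 1` are coprime for `n = 4 mod 8`. -/
lemma copq {n j : ℕ} (hn : n % 8 = 4) : Nat.Coprime (2 ^ (4 * j) + 1) (2 ^ n - 1) := by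
  obtain ⟨g, hg⟩ : ∃ g, g = Nat.gcd (2 ^ (4 * j) + 1) (2 ^ n - 1) := ⟨_, rfl⟩
  have h1 : g ∣ 2 ^ (4 * j) + 1 := hg ▸ Nat.gcd_dvd_left _ _
  have h2 : g ∣ 2 ^ n - 1 := hg ▸ Nat.gcd_dvd_right _ _
  have e1 : ((2 : ZMod g)) ^ (4 * j) = -1 := by
    have := (ZMod.natCast_eq_zero_iff (2 ^ (4 * j) + 1) g).2 h1
    push_cast at this
    linear_combination this
  have e2 : ((2 : ZMod g)) ^ n = 1 := by
    have := (ZMod.natCast_eq_zero_iff (2 ^ n - 1) g).2 h2
    rw [Nat.cast_sub Nat.one_le_two_pow] at this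
    push_cast at this
    linear_combination this
  obtain ⟨m, hm, hm2⟩ : ∃ m, n = 4 * m ∧ m % 2 = 1 := ⟨n / 4, by omega, by omega⟩
  have e3 : ((2 : ZMod g) ^ (4 * j)) ^ m = ((2 : ZMod g) ^ n) ^ j := by
    rw [← pow_mul, ← pow_mul, hm]
    congr 1
    ring
  have hodd : Odd m := Nat.odd_iff.2 hm2
  rw [e1, e2, one_pow, hodd.neg_one_pow] at e3
  have e4 : ((2 : ℕ) : ZMod g) = 0 := by
    push_cast
    linear_combination -e3
  have h3 : g ∣ 2 := (ZMod.natCast_eq_zero_iff 2 g).1 e4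
  have h4 : g = 1 ∨ g = 2 := (Nat.dvd_prime Nat.prime_two).1 h3
  rcases h4 with h4 | h4
  · rw [Nat.Coprime, ← hg, h4]
  · exfalso
    rw [h4] at h2
    have h5 : 2 ∣ 2 ^ n := dvd_pow_self 2 (by omega)
    have h6 : 0 < 2 ^ n := by positivity
    omega

lemma caseq (j : ℕ) (hj : 0 < j) (hn8 : n % 8 = 4) (ha : 0 < a) (han : a < n)
    (h : α ^ n + α ^ a + 1 = 0) (hord : orderOf α = 2 ^ n - 1)
    (hd : 2 ^ (4 * j) + 1 ∣ n ∨ 2 ^ (4 * j) + 1 ∣ a ∨ 2 ^ (4 * j) + 1 ∣ n - a) :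
    ∃ g, IsPentanomial n g ∧ IsPrim g := by
  have hcop := coprime_exponents ha han h hord
  have hordq := order_coprime hord (copq (j := j) hn8)
  have h' : α ^ n + α ^ a + α ^ 0 = 0 := by rw [pow_zero]; exact h
  obtain ⟨Q, hQ⟩ : ∃ Q, Q = 2 ^ (4 * j) := ⟨_, rfl⟩
  have hQ2 : 2 ≤ Q := by
    rw [hQ]
    calc 2 = 2 ^ 1 := by norm_num
      _ ≤ 2 ^ (4 * j) := Nat.pow_le_pow_right (by norm_num) (by omega)
  have hQeven : Q % 2 = 0 := by
    rw [hQ]
    exact Nat.mod_eq_zero_of_dvd (dvd_pow_self 2 (by omega))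
  rcases hd with ⟨c, hc⟩ | ⟨c, hc⟩ | ⟨c, hc⟩
  · have h1 : α ^ n + α ^ 0 + α ^ a = 0 := by rw [← h']; ring
    have h2 := decq (e1 := Q * c) (e2 := c) (k := 4 * j) h1
      (by rw [hc, hQ]; ring) (by rw [hc]; ring)
    rw [pow_zero] at h2
    rw [← hQ] at hc
    have hc' : n = Q * c + c := by rw [hc]; ring
    have hc0 : 0 < c := by
      rcases Nat.eq_zero_or_pos c with h0 | h0
      · rw [h0] at hc'; omega
      · exact h0
    have hQc : 2 * c ≤ Q * c := Nat.mul_le_mul_right c hQ2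
    have hc1 : c ∣ a → False := by
      intro hca
      have hcn : c ∣ n := ⟨Q + 1, by rw [hc]; ring⟩
      have : c ∣ 1 := hcop ▸ Nat.dvd_gcd hcn hca
      have := Nat.dvd_one.1 this
      rw [this] at hc'
      omega
    exact penta hordq (p := a) (q := Q * c) (s := c) ha (by omega) (by omega) han (by omega)
      (by omega) (fun hh => hc1 ⟨Q, by rw [hh]; ring⟩) (by omega)
      (fun hh => hc1 ⟨1, by rw [hh]; ring⟩) (by rw [← h2]; ring)
  · have h1 : α ^ a + α ^ 0 + α ^ n = 0 := by rw [← h']; ring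
    have h2 := decq (e1 := Q * c) (e2 := c) (k := 4 * j) h1
      (by rw [hc, hQ]; ring) (by rw [hc]; ring)
    rw [pow_zero] at h2
    rw [← hQ] at hc
    have hc' : a = Q * c + c := by rw [hc]; ring
    have hc0 : 0 < c := by
      rcases Nat.eq_zero_or_pos c with h0 | h0
      · rw [h0] at hc'; omega
      · exact h0
    have hQc : 2 * c ≤ Q * c := Nat.mul_le_mul_right c hQ2
    exact penta hordq (p := a) (q := Q * c) (s := c) ha (by omega) (by omega) han (by omega)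
      (by omega) (by omega) (by omega) (by omega) (by rw [← h2]; ring)
  · have hna : n = a + (2 ^ (4 * j) + 1) * c := by omega
    have h2 := decq (e1 := a + Q * c) (e2 := a + c) (k := 4 * j) h'
      (by rw [hna, hQ]; ring) (by rw [hna]; ring)
    rw [pow_zero] at h2
    rw [← hQ] at hna
    have hc' : n = a + Q * c + c := by rw [hna]; ring
    have hc0 : 0 < c := by
      rcases Nat.eq_zero_or_pos c with h0 | h0
      · rw [h0] at hc'; omega
      · exact h0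
    have hQc : 2 * c ≤ Q * c := Nat.mul_le_mul_right c hQ2
    exact penta hordq (p := a) (q := a + Q * c) (s := a + c) ha (by omega) (by omega) han
      (by omega) (by omega) (by omega) (by omega) (by omega) (by rw [← h2]; ring)

lemma casewt {i j : ℕ} (hij : i < j) (haij : a = 2 ^ i + 2 ^ j) (hac : Nat.Coprime a (2 ^ n - 1))
    (han : a < n) (h : α ^ n + α ^ a + 1 = 0) (hord : orderOf α = 2 ^ n - 1) :
    ∃ g, IsPentanomial n g ∧ IsPrim g := by
  have h2 := two_eq (K := K)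
  have hchar := charTwo (K := K)
  have horda := order_coprime hord hac
  have hβ : α ^ a + 1 = α ^ n := by linear_combination h - α ^ n * h2
  have e1 : (α ^ a + 1) ^ a = ((α ^ a) ^ 2 ^ i + 1) * ((α ^ a) ^ 2 ^ j + 1) := by
    conv_lhs => rw [haij, pow_add]
    rw [← haij, add_pow_char_pow (α ^ a) 1 2 i, add_pow_char_pow (α ^ a) 1 2 j, one_pow, one_pow]
  have e2 : (α ^ a + 1) ^ a = (α ^ a) ^ n := by
    rw [hβ, ← pow_mul, ← pow_mul, mul_comm]
  have e3 : (α ^ a) ^ a = (α ^ a) ^ 2 ^ i * (α ^ a) ^ 2 ^ j := by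
    rw [← pow_add, ← haij]
  have hi : 0 < 2 ^ i := by positivity
  have hlt : 2 ^ i < 2 ^ j := Nat.pow_lt_pow_right (by norm_num) hij
  refine penta horda (p := a) (q := 2 ^ i) (s := 2 ^ j) (by omega) (by omega) (by omega) han
    (by omega) (by omega) (by omega) (by omega) (by omega) ?_
  have e4 : (α ^ a) ^ n = ((α ^ a) ^ 2 ^ i + 1) * ((α ^ a) ^ 2 ^ j + 1) := by rw [← e2, e1]
  rw [e3, e4]
  linear_combination ((α ^ a) ^ 2 ^ i * (α ^ a) ^ 2 ^ j + (α ^ a) ^ 2 ^ i + (α ^ a) ^ 2 ^ j + 1) * h2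

omit [Algebra (ZMod 2) K] in
lemma inv_root (han : a < n) (hα : α ≠ 0) (h : α ^ n + α ^ a + 1 = 0) :
    (α⁻¹) ^ n + (α⁻¹) ^ (n - a) + 1 = 0 := by
  have e : α ^ n = α ^ a * α ^ (n - a) := by rw [← pow_add]; congr 1; omega
  rw [inv_pow, inv_pow, e]
  rw [e] at h
  have h1 : α ^ a ≠ 0 := pow_ne_zero _ hα
  have h2 : α ^ (n - a) ≠ 0 := pow_ne_zero _ hα
  field_simp
  linear_combination h

end cases2

/-- Let `n ≥ 6` be even, `0 < a < n`, and let the trinomial `x^n + x^a + 1` be primitive over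
`GF(2)`. Then there is a primitive pentanomial of degree `n` if
* `n = 2 mod 4`, or
* `3` does not divide `n` and `7` divides none of `n`, `a`, `n - a`, or
* `n = 4 mod 8` and `2^{4j} + 1` divides one of `n`, `a`, `n - a` for some `j ≥ 1`, or
* `a` or `n - a` is a sum of two different powers of `2` and coprime to `2^n - 1`. -/
theorem result (n a : ℕ) (hn : 6 ≤ n) (ha : 0 < a) (han : a < n)
    (h : IsPrim ((X : (ZMod 2)[X]) ^ n + X ^ a + 1))
    (hc : n % 4 = 2 ∨ (¬ 3 ∣ n ∧ ¬ 7 ∣ n ∧ ¬ 7 ∣ a ∧ ¬ 7 ∣ n - a) ∨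
      (n % 8 = 4 ∧ ∃ j, 0 < j ∧
        (2 ^ (4 * j) + 1 ∣ n ∨ 2 ^ (4 * j) + 1 ∣ a ∨ 2 ^ (4 * j) + 1 ∣ n - a)) ∨
      (∃ i j, i < j ∧ ((a = 2 ^ i + 2 ^ j ∧ Nat.Coprime a (2 ^ n - 1)) ∨
        (n - a = 2 ^ i + 2 ^ j ∧ Nat.Coprime (n - a) (2 ^ n - 1))))) :
    ∃ g : (ZMod 2)[X], IsPentanomial n g ∧ IsPrim g := by
  obtain ⟨K, _, _, α, hα, hord⟩ := exists_root han h
  rcases hc with hc | ⟨h3, h7, h7a, h7b⟩ | ⟨h8, j, hj, hd⟩ | ⟨i, j, hij, hc | hc⟩
  · exact case5 hn hc ha han hα hord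
  · exact case7 hn h3 h7 h7a h7b ha han hα hord h
  · exact caseq j hj h8 ha han hα hord hd
  · exact casewt hij hc.1 hc.2 han hα hord
  · have hpos : 0 < 2 ^ n - 1 := by
      have : 2 ^ 1 ≤ 2 ^ n := Nat.pow_le_pow_right (by norm_num) (by omega)
      omega
    have hα0 : α ≠ 0 := by
      rintro rfl
      have h1 := pow_orderOf_eq_one (0 : K)
      rw [hord, zero_pow hpos.ne'] at h1
      exact zero_ne_one h1
    refine casewt (α := α⁻¹) hij hc.1 hc.2 (by omega) (inv_root han hα0 hα) ?_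
    rw [← hord, orderOf_eq_orderOf_iff]
    intro k
    rw [inv_pow, inv_eq_one]

end Pool.Agent.Results.MP_4f8f6c_nt.PrimitivePentanomials
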